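import Pool.Agent.H278R3.ZT.FGeo

/-! Task F of project ZT (helper278). -/

set_option autoImplicit false

namespace Pool.Agent.H278R3.ZT

open Pool.Agent Pool.Agent.H387R3.ZT PowerSeries
open scoped PowerSeries.WithPiTopology

/-- abstract statement 1 (proved by helper962, `fabs_pow`) -/
def FabsPow : Prop := ∀ (p : ℕ) [Fact p.Prime] (q N : ℕ), 2 ≤ q → 2 ≤ N →
  ∀ (ι₀ ι₁ : Type) [Infinite ι₀] (d₀ : ι₀ → ℕ) (d₁ : ι₁ → ℕ), (∀ v, d₀ v ≠ 0) → (∀ v, d₁ v ≠ 0) →
  (∀ m, {v | d₀ v ≤ m}.Finite) → (∀ m, {v | d₁ v ≤ m}.Finite) →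
  (∃ P : Polynomial ℂ_[p], (∏' v, (1 - X ^ d₀ v)⁻¹) * (1 - X) * (1 - C (q : ℂ_[p]) * X) =
    (P : PowerSeries ℂ_[p])) →
  (∃ P : Polynomial ℂ_[p], (∏' v, (1 - X ^ d₁ v)⁻¹) * (1 - X) * (1 - C (q : ℂ_[p]) * X) =
    (P : PowerSeries ℂ_[p])) →
  ∀ f : ι₁ → ι₀, (∀ w, d₁ w = d₀ (f w)) → (∀ v, {w | f w = v}.ncard = N) → False

/-- abstract statement 2 (proved by helper962, `fabs_div`) -/
def FabsDiv : Prop := ∀ (p : ℕ) [Fact p.Prime] (q m : ℕ), 2 ≤ q → 2 ≤ m →
  ∀ (ι₁ : Type) [Infinite ι₁] (d₁ : ι₁ → ℕ), (∀ v, d₁ v ≠ 0) →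
  (∀ m, {v | d₁ v ≤ m}.Finite) →
  (∃ P : Polynomial ℂ_[p], (∏' v, (1 - X ^ d₁ v)⁻¹) * (1 - X) * (1 - C (q : ℂ_[p]) * X) =
    (P : PowerSeries ℂ_[p])) →
  (∀ w, m ∣ d₁ w) → False

section tower

variable {p : ℕ} [Fact p.Prime] {k F E : Type} [Field k] [Field F] [Algebra k F]
  [Field E] [Algebra F E] [Algebra k E] [IsScalarTower k F E]

omit [Algebra k E] [IsScalarTower k F E] in
theorem isFrob_res [IsGalois F E] (v : H707R3.Place k F) (σ : E ≃ₐ[F] E) (hσ : v.IsFrob σ)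
    (K : IntermediateField F E) [IsGalois F K] : v.IsFrob (res K σ) := by
  obtain ⟨W, hW, h⟩ := hσ
  refine ⟨W.comap (algebraMap K E), ?_, ?_⟩
  · rw [← hW]; rfl
  · intro a ha
    rw [H639R3.comap_val_lt_one]
    have h1 := h (a : E) ha
    have e : algebraMap K E (res K σ a - a ^ Nat.card v.κ) = σ (a : E) - (a : E) ^ Nat.card v.κ := by
      rw [map_sub, map_pow]
      show ((res K σ a : K) : E) - _ = _
      rw [res_apply]
      rfl
    rw [e]
    exact h1

theorem unr_layer (hUnr : TaskUnr) [Finite k] [CharP k p] (h : H707R3.IsZpTower k F E p)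
    (K : IntermediateField F E) [FiniteDimensional F K] [IsGalois F K] (v : H707R3.Place k F)
    (hv : v.IsUnramified E) : v.IsUnramified K := by
  have hO : (H525R3.FFp.bridge h.base v).O = v.ring := H525R3.FFp.bridge_O h.base v
  have h1 := hUnr p k F E h K v (H525R3.FFp.bridge h.base v) hO hv
  intro W hW σ hσ
  exact h1 W (by rw [hO]; exact hW) σ hσ

theorem over_facts (hFrob : TaskFrob) (hUnr : TaskUnr) [Finite k] [CharP k p]
    (h : H707R3.IsZpTower k F E p) [IsGalois F E]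
    (Φ : (E ≃ₐ[F] E) ≃ₜ* Multiplicative ℤ_[p]) (n : ℕ) (K : IntermediateField F E)
    [FiniteDimensional F K] [IsGalois F K] (hK : Module.finrank F K = p ^ n)
    (v : H707R3.Place k F) (hv : v.IsUnramified E) :
    (∀ w ∈ H623R3.ZT.placesOver K v, w.deg = orderOf (res K (v.frob E)) * v.deg) ∧
      (H623R3.ZT.placesOver K v).Finite ∧
      (H623R3.ZT.placesOver K v).ncard * orderOf (res K (v.frob E)) = p ^ n := by
  have h1 := H623R3.ZT.places_over h.base (layer_curve h K) (layer_comm Φ.toMulEquiv K n hK) v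
    (unr_layer hUnr h K v hv) (res K (v.frob E)) (isFrob_res v _ (hFrob p k F E h v) K)
  rw [IsGalois.card_aut_eq_finrank, hK] at h1
  exact h1

/-- the places of a layer which lie over unramified places -/
def UU (k E : Type) {F : Type} [Field k] [Field F] [Algebra k F] [Field E] [Algebra F E]
    [Algebra k E] [IsScalarTower k F E] (K : IntermediateField F E) [FiniteDimensional F K] :
    Set (H707R3.Place k K) := {w | (below (F := F) w).IsUnramified E}

theorem UU_compl_finite [Finite k] (h : H707R3.IsZpTower k F E p) (K : IntermediateField F E)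
    [FiniteDimensional F K] [IsGalois F K] : (UU k E K)ᶜ.Finite := by
  refine (h.finite_ramified.biUnion fun v _ => placesOver_finite (K := K) h.base v).subset ?_
  intro w hw
  exact Set.mem_biUnion (x := below (F := F) w) hw ((mem_placesOver_iff _ w).2 rfl)

theorem UU_infinite (hFrob : TaskFrob) (hUnr : TaskUnr) [Finite k] [CharP k p]
    (h : H707R3.IsZpTower k F E p) [IsGalois F E]
    (Φ : (E ≃ₐ[F] E) ≃ₜ* Multiplicative ℤ_[p]) (n : ℕ) (K : IntermediateField F E)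
    [FiniteDimensional F K] [IsGalois F K] (hK : Module.finrank F K = p ^ n) :
    Infinite (UU k E K) := by
  have h1 : Infinite (H707R3.Place k F) := H707R3.infinite_place h.base
  have h2 : Infinite {v : H707R3.Place k F // v.IsUnramified E} := by
    have h3 := h.finite_ramified.infinite_compl
    have h4 : {v : H707R3.Place k F | ¬ v.IsUnramified E}ᶜ = {v | v.IsUnramified E} := by
      ext v
      simp
    rw [h4] at h3
    exact h3.to_subtype
  apply Infinite.of_surjective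
    (fun w : UU k E K => (⟨below (F := F) w.1, w.2⟩ : {v : H707R3.Place k F // v.IsUnramified E}))
  rintro ⟨v, hv⟩
  obtain ⟨-, -, hc⟩ := over_facts hFrob hUnr h Φ n K hK v hv
  have hne : (H623R3.ZT.placesOver K v).Nonempty := by
    by_contra hcon
    rw [Set.not_nonempty_iff_eq_empty.1 hcon, Set.ncard_empty, zero_mul] at hc
    exact (pow_pos (Fact.out : p.Prime).pos n).ne hc
  obtain ⟨w, hw⟩ := hne
  rw [mem_placesOver_iff] at hw
  refine ⟨⟨w, ?_⟩, ?_⟩
  · show (below (F := F) w).IsUnramified E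
    rw [hw]
    exact hv
  · apply Subtype.ext
    exact hw

theorem poly_prop [Finite k] (h : H707R3.IsZpTower k F E p) (K : IntermediateField F E)
    [FiniteDimensional F K] [IsGalois F K] (A : Multiset ℂ_[p])
    (hA : zetaP p k K * (1 - X) * (1 - C (Nat.card k : ℂ_[p]) * X) = H707R3.recipProd A) :
    ∃ P : Polynomial ℂ_[p], (∏' w : UU k E K, (1 - X ^ w.1.deg)⁻¹) * (1 - X) *
      (1 - C (Nat.card k : ℂ_[p]) * X) = (P : PowerSeries ℂ_[p]) := by
  have hc := layer_curve h K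
  have h1 := zd_split (p := p) (fun w : H707R3.Place k K => w.deg) (H707R3.deg_ne_zero hc)
    (H707R3.finite_deg_le hc) (UU k E K) (UU_compl_finite h K)
  have h2 : zd p (fun w : H707R3.Place k K => w.deg) = zetaP p k K := rfl
  have h3 : (∏' w : UU k E K, (1 - X ^ w.1.deg)⁻¹ : PowerSeries ℂ_[p]) =
      zd p (fun w : UU k E K => w.1.deg) := rfl
  refine ⟨H707R3.recipPoly A * ∏ w ∈ (UU_compl_finite h K).toFinset,
    (1 - Polynomial.X ^ w.deg), ?_⟩
  rw [h3, h1, h2, Polynomial.coe_mul, H707R3.coe_recipPoly, ← hA]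
  have h4 : ((∏ w ∈ (UU_compl_finite h K).toFinset, (1 - Polynomial.X ^ w.deg) :
      Polynomial ℂ_[p]) : PowerSeries ℂ_[p]) =
      ∏ w ∈ (UU_compl_finite h K).toFinset, (1 - X ^ w.deg) := by
    have := map_prod (Polynomial.coeToPowerSeries.ringHom (R := ℂ_[p]))
      (fun w : H707R3.Place k K => (1 - Polynomial.X ^ w.deg : Polynomial ℂ_[p]))
      (UU_compl_finite h K).toFinset
    rw [Polynomial.coeToPowerSeries.ringHom_apply] at this
    rw [this]
    apply Finset.prod_congr rfl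
    intro w _
    rw [Polynomial.coeToPowerSeries.ringHom_apply]
    simp
  rw [h4]
  ring

/-- a divisor whose Frobenius exponent is not zero -/
theorem hasD0_of (Φ : (E ≃ₐ[F] E) ≃ₜ* Multiplicative ℤ_[p])
    (D : {v : H707R3.Place k F // v.IsUnramified E} →₀ ℤ)
    (hdeg : (D.sum fun v n => n * (v.1.deg : ℤ)) = 0) (l : ℤ_[p])
    (hl : (D.sum fun v n => (n : ℤ_[p]) * (Φ (v.1.frob E)).toAdd) = l) (hne : l ≠ 0) (n : ℕ)
    (hn : l.valuation < n) (χ : (E ≃ₐ[F] E) →* ℂ_[p]ˣ) (hχ : orderOf χ = p ^ n) :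
    HasD0 k χ := by
  refine ⟨D, hdeg, ?_⟩
  let ψ : Multiplicative ℤ_[p] →* ℂ_[p]ˣ := χ.comp Φ.symm.toMulEquiv.toMonoidHom
  have hψ : ∀ σ, ψ (Φ σ) = χ σ := by
    intro σ
    show χ (Φ.symm (Φ σ)) = χ σ
    rw [ContinuousMulEquiv.symm_apply_apply]
  have key : (D.prod fun v m => χ (v.1.frob E) ^ m) = ψ (Multiplicative.ofAdd l) := by
    rw [← hl, Finsupp.prod, Finsupp.sum, ofAdd_sum, map_prod]
    apply Finset.prod_congr rfl
    intro v _
    rw [← hψ, ← map_zpow]
    have e1 : Multiplicative.ofAdd (((D v : ℤ) : ℤ_[p]) * (Φ (v.1.frob E)).toAdd) =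
        Φ (v.1.frob E) ^ (D v) := by
      apply Multiplicative.toAdd.injective
      rw [toAdd_zpow, toAdd_ofAdd, zsmul_eq_mul]
    rw [e1]
  rw [key]
  obtain ⟨hz, hval⟩ := H707R3.char_eq Φ.toMulEquiv χ hχ
  intro h1
  have h2 := hval (Φ.symm (Multiplicative.ofAdd l))
  have h3 : χ (Φ.symm (Multiplicative.ofAdd l)) = 1 := h1
  rw [h3, Units.val_one] at h2
  have h4 := (hz.pow_eq_one_iff_dvd _).1 h2.symm
  have h5 : (Φ.toMulEquiv (Φ.symm (Multiplicative.ofAdd l))).toAdd = l := by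
    show (Φ (Φ.symm (Multiplicative.ofAdd l))).toAdd = l
    rw [ContinuousMulEquiv.apply_symm_apply]
    rfl
  rw [h5] at h4
  obtain ⟨c, hc⟩ := H707R3.exists_mul_pow n l
  have h6 : (p : ℤ_[p]) ^ n ∣ l := by
    rw [hc]
    apply dvd_add
    · obtain ⟨b, hb⟩ := h4
      rw [hb]
      push_cast
      exact dvd_mul_right _ _
    · exact dvd_mul_right _ _
  rw [← Ideal.mem_span_singleton, PadicInt.mem_span_pow_iff_le_valuation l hne] at h6
  omega

theorem res_eq_one_of [IsGalois F E] (Φ : (E ≃ₐ[F] E) ≃ₜ* Multiplicative ℤ_[p]) (n : ℕ)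
    (K : IntermediateField F E) [IsGalois F K] (hK : Module.finrank F K = p ^ n)
    (σ : E ≃ₐ[F] E) (hσ : (p : ℤ_[p]) ^ n ∣ (Φ σ).toAdd) : res K σ = 1 := by
  rw [res_eq_one_iff, mem_layer_fixingSubgroup Φ.toMulEquiv K n hK]
  exact hσ

theorem case_split (hpow : FabsPow) (hFrob : TaskFrob) (hUnr : TaskUnr) [Finite k] [CharP k p]
    (h : H707R3.IsZpTower k F E p) [IsGalois F E] (Φ : (E ≃ₐ[F] E) ≃ₜ* Multiplicative ℤ_[p])
    (K₀ K₁ : IntermediateField F E) [FiniteDimensional F K₀] [IsGalois F K₀]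
    [FiniteDimensional F K₁] [IsGalois F K₁] (h0 : Module.finrank F K₀ = p ^ 0)
    (h1 : Module.finrank F K₁ = p ^ 1)
    (hr : ∀ v : H707R3.Place k F, v.IsUnramified E → (Φ (v.frob E)).toAdd = 0)
    (hp0 : ∃ P : Polynomial ℂ_[p], (∏' w : UU k E K₀, (1 - X ^ w.1.deg)⁻¹) * (1 - X) *
      (1 - C (Nat.card k : ℂ_[p]) * X) = (P : PowerSeries ℂ_[p]))
    (hp1 : ∃ P : Polynomial ℂ_[p], (∏' w : UU k E K₁, (1 - X ^ w.1.deg)⁻¹) * (1 - X) *
      (1 - C (Nat.card k : ℂ_[p]) * X) = (P : PowerSeries ℂ_[p])) : False := by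
  have hq : 2 ≤ Nat.card k := Finite.one_lt_card
  have hp : 2 ≤ p := (Fact.out : p.Prime).two_le
  have facts : ∀ (n : ℕ) (K : IntermediateField F E) [FiniteDimensional F K] [IsGalois F K],
      Module.finrank F K = p ^ n → ∀ v : H707R3.Place k F, v.IsUnramified E →
      (∀ w ∈ H623R3.ZT.placesOver K v, w.deg = v.deg) ∧ (H623R3.ZT.placesOver K v).Finite ∧
        (H623R3.ZT.placesOver K v).ncard = p ^ n := by
    intro n K _ _ hK v hv
    obtain ⟨a1, a2, a3⟩ := over_facts hFrob hUnr h Φ n K hK v hv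
    have e : res K (v.frob E) = 1 := res_eq_one_of Φ n K hK _ (by rw [hr v hv]; exact dvd_zero _)
    rw [e, orderOf_one] at a1 a3
    refine ⟨fun w hw => by rw [a1 w hw, one_mul], a2, ?_⟩
    rw [← a3, mul_one]
  -- the unique place of `K₀`
  have hex : ∀ w : UU k E K₁, ∃ w₀ : UU k E K₀, below (F := F) w₀.1 = below (F := F) w.1 := by
    intro w
    obtain ⟨-, -, a3⟩ := facts 0 K₀ h0 (below (F := F) w.1) w.2
    have hne : (H623R3.ZT.placesOver K₀ (below (F := F) w.1)).Nonempty := by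
      by_contra hcon
      rw [Set.not_nonempty_iff_eq_empty.1 hcon, Set.ncard_empty, pow_zero] at a3
      exact absurd a3 (by norm_num)
    obtain ⟨w₀, hw₀⟩ := hne
    rw [mem_placesOver_iff] at hw₀
    refine ⟨⟨w₀, ?_⟩, hw₀⟩
    show (below (F := F) w₀).IsUnramified E
    rw [hw₀]
    exact w.2
  choose f hf using hex
  have huniq : ∀ w₀ w₀' : UU k E K₀, below (F := F) w₀.1 = below (F := F) w₀'.1 → w₀ = w₀' := by
    intro w₀ w₀' hww
    obtain ⟨-, -, a3⟩ := facts 0 K₀ h0 (below (F := F) w₀.1) w₀.2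
    rw [pow_zero, Set.ncard_eq_one] at a3
    obtain ⟨x, hx⟩ := a3
    have b1 : w₀.1 ∈ H623R3.ZT.placesOver K₀ (below (F := F) w₀.1) := (mem_placesOver_iff _ _).2 rfl
    have b2 : w₀'.1 ∈ H623R3.ZT.placesOver K₀ (below (F := F) w₀.1) :=
      (mem_placesOver_iff _ _).2 hww.symm
    rw [hx] at b1 b2
    apply Subtype.ext
    rw [Set.mem_singleton_iff.1 b1, Set.mem_singleton_iff.1 b2]
  have hinf : Infinite (UU k E K₀) := UU_infinite hFrob hUnr h Φ 0 K₀ h0
  have hc0 := layer_curve h K₀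
  have hc1 := layer_curve h K₁
  refine hpow p (Nat.card k) p hq hp (UU k E K₀) (UU k E K₁) (fun w => w.1.deg)
    (fun w => w.1.deg) (fun w => H707R3.deg_ne_zero hc0 w.1) (fun w => H707R3.deg_ne_zero hc1 w.1)
    (fun m => (H707R3.finite_deg_le hc0 m).preimage Subtype.val_injective.injOn)
    (fun m => (H707R3.finite_deg_le hc1 m).preimage Subtype.val_injective.injOn) hp0 hp1 f ?_ ?_
  · intro w
    have c1 := (facts 1 K₁ h1 (below (F := F) w.1) w.2).1 w.1 ((mem_placesOver_iff _ _).2 rfl)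
    have c0 := (facts 0 K₀ h0 (below (F := F) (f w).1) (f w).2).1 (f w).1
      ((mem_placesOver_iff _ _).2 rfl)
    show w.1.deg = (f w).1.deg
    rw [c1, c0, hf w]
  · intro w₀
    obtain ⟨-, -, a3⟩ := facts 1 K₁ h1 (below (F := F) w₀.1) w₀.2
    rw [pow_one] at a3
    rw [← a3]
    rw [← Set.ncard_image_of_injective {w : UU k E K₁ | f w = w₀} Subtype.val_injective]
    congr 1
    ext w
    rw [mem_placesOver_iff]
    constructor
    · rintro ⟨w', hw', rfl⟩
      have : f w' = w₀ := hw'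
      rw [← this]
      exact (hf w').symm
    · intro hw
      have hU : (below (F := F) w).IsUnramified E := by rw [hw]; exact w₀.2
      refine ⟨⟨w, hU⟩, ?_, rfl⟩
      apply huniq
      rw [hf ⟨w, hU⟩]
      exact hw

theorem case_inert (hdiv : FabsDiv) (hFrob : TaskFrob) (hUnr : TaskUnr) [Finite k] [CharP k p]
    (h : H707R3.IsZpTower k F E p) [IsGalois F E] (Φ : (E ≃ₐ[F] E) ≃ₜ* Multiplicative ℤ_[p])
    (n : ℕ) (K : IntermediateField F E) [FiniteDimensional F K] [IsGalois F K]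
    (hK : Module.finrank F K = p ^ n)
    (v₀ : H707R3.Place k F) (hn : ¬ (p : ℤ_[p]) ^ n ∣ (Φ (v₀.frob E)).toAdd)
    (cross : ∀ v : H707R3.Place k F, v.IsUnramified E →
      (Φ (v.frob E)).toAdd * (v₀.deg : ℤ_[p]) = (Φ (v₀.frob E)).toAdd * (v.deg : ℤ_[p]))
    (hp1 : ∃ P : Polynomial ℂ_[p], (∏' w : UU k E K, (1 - X ^ w.1.deg)⁻¹) * (1 - X) *
      (1 - C (Nat.card k : ℂ_[p]) * X) = (P : PowerSeries ℂ_[p])) : False := by
  have hq : 2 ≤ Nat.card k := Finite.one_lt_card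
  have hpp : p.Prime := Fact.out
  have hinf : Infinite (UU k E K) := UU_infinite hFrob hUnr h Φ n K hK
  have hc := layer_curve h K
  refine hdiv p (Nat.card k) p hq hpp.two_le (UU k E K) (fun w => w.1.deg)
    (fun w => H707R3.deg_ne_zero hc w.1)
    (fun m => (H707R3.finite_deg_le hc m).preimage Subtype.val_injective.injOn) hp1 ?_
  intro w
  obtain ⟨a1, -, -⟩ := over_facts hFrob hUnr h Φ n K hK (below (F := F) w.1) w.2
  have hdeg := a1 w.1 ((mem_placesOver_iff _ _).2 rfl)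
  show p ∣ w.1.deg
  rw [hdeg]
  set v := below (F := F) w.1 with hv
  have hord := (orderOf_res_dvd_iff Φ.toMulEquiv K n hK (v.frob E)
    (orderOf (res K (v.frob E)))).1 (dvd_refl _)
  by_contra hcon
  have h1 : ¬ p ∣ orderOf (res K (v.frob E)) := fun h2 => hcon (h2.mul_right _)
  have h2 : ¬ p ∣ v.deg := fun h3 => hcon (h3.mul_left _)
  have hunit : ∀ m : ℕ, ¬ p ∣ m → IsUnit (m : ℤ_[p]) := by
    intro m hm
    rw [PadicInt.isUnit_iff, PadicInt.norm_natCast_eq_one_iff]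
    exact (Nat.Prime.coprime_iff_not_dvd hpp).2 hm
  have h3 : (p : ℤ_[p]) ^ n ∣ (Φ (v.frob E)).toAdd := by
    have := (hunit _ h1).dvd_mul_left (a := (p : ℤ_[p]) ^ n) (b := (Φ (v.frob E)).toAdd)
    exact this.1 hord
  have h4 : (p : ℤ_[p]) ^ n ∣ (Φ (v₀.frob E)).toAdd * (v.deg : ℤ_[p]) := by
    rw [← cross v w.2]
    exact h3.mul_right _
  exact hn ((hunit _ h2).dvd_mul_right.1 h4)

end tower

theorem taskF2_of (hpow : FabsPow) (hdiv : FabsDiv) (hFrob : TaskFrob) (hUnr : TaskUnr) :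
    TaskF2 := by
  intro p _ k F E _ _ _ _ _ _ _ _ _ h
  obtain ⟨Φ⟩ := h.group
  have hgal := h.galois
  by_cases hL : ∃ D : {v : H707R3.Place k F // v.IsUnramified E} →₀ ℤ,
      (D.sum fun v n => n * (v.1.deg : ℤ)) = 0 ∧
      (D.sum fun v n => (n : ℤ_[p]) * (Φ (v.1.frob E)).toAdd) ≠ 0
  · obtain ⟨D, h1, h2⟩ := hL
    refine ⟨(D.sum fun v n => (n : ℤ_[p]) * (Φ (v.1.frob E)).toAdd).valuation + 1, ?_⟩
    intro K A _ n χ hn hχ
    exact hasD0_of Φ D h1 _ rfl h2 n (by omega) χ hχ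
  · refine ⟨0, ?_⟩
    intro K A hN
    exfalso
    push Not at hL
    have cross : ∀ v w : H707R3.Place k F, v.IsUnramified E → w.IsUnramified E →
        (Φ (v.frob E)).toAdd * (w.deg : ℤ_[p]) = (Φ (w.frob E)).toAdd * (v.deg : ℤ_[p]) := by
      intro v w hv hw
      have h1 := hL (Finsupp.single ⟨v, hv⟩ (w.deg : ℤ) - Finsupp.single ⟨w, hw⟩ (v.deg : ℤ)) (by
        rw [Finsupp.sum_sub_index (by intro a b c; ring), Finsupp.sum_single_index (by ring),
          Finsupp.sum_single_index (by ring)]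
        ring)
      rw [Finsupp.sum_sub_index (by intro a b c; push_cast; ring),
        Finsupp.sum_single_index (by push_cast; ring),
        Finsupp.sum_single_index (by push_cast; ring)] at h1
      push_cast at h1
      linear_combination h1
    have hfin : ∀ n, FiniteDimensional F (K n) := fun n => layer_finite (K n) n (hN n).1
    have hg : ∀ n, IsGalois F (K n) := fun n => layer_galois Φ.toMulEquiv (K n)
    have hP : ∀ n, ∃ P : Polynomial ℂ_[p], (∏' w : UU k E (K n), (1 - X ^ w.1.deg)⁻¹) * (1 - X) *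
        (1 - C (Nat.card k : ℂ_[p]) * X) = (P : PowerSeries ℂ_[p]) := fun n =>
      poly_prop h (K n) (A n) (hN n).2
    by_cases hr : ∀ v : H707R3.Place k F, v.IsUnramified E → (Φ (v.frob E)).toAdd = 0
    · exact case_split hpow hFrob hUnr h Φ (K 0) (K 1) (hN 0).1 (hN 1).1 hr (hP 0) (hP 1)
    · push Not at hr
      obtain ⟨v₀, hv₀, hne⟩ := hr
      set l := (Φ (v₀.frob E)).toAdd with hl
      refine case_inert hdiv hFrob hUnr h Φ (l.valuation + 1) (K (l.valuation + 1))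
        (hN _).1 v₀ ?_ (fun v hv => cross v v₀ hv hv₀) (hP _)
      rw [← Ideal.mem_span_singleton, ← hl, PadicInt.mem_span_pow_iff_le_valuation l hne]
      omega

end Pool.Agent.H278R3.ZT
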