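import Pool.Agent.H278R3.ZT.FDefs
import Pool.Agent.H278R3.ZT.LayerCurve
import Pool.Agent.H278R3.ZT.FAna
import Pool.Agent.H623R3.ZT.PlacesOver
import Pool.Agent.H525R3.FFp.Bridge

/-! Places of the layers over unramified places (project ZT, helper278). -/

set_option autoImplicit false

namespace Pool.Agent.H278R3.ZT

open Pool.Agent Pool.Agent.H387R3.ZT PowerSeries
open scoped PowerSeries.WithPiTopology

section finite

variable {k F : Type} [Field k] [Field F] [Algebra k F]

/-- the place of `F` below a place of a finite extension -/
noncomputable def below {K : Type} [Field K] [Algebra F K] [Algebra k K] [IsScalarTower k F K]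
    [FiniteDimensional F K] (w : H707R3.Place k K) : H707R3.Place k F where
  ring := w.ring.comap (algebraMap F K)
  const_mem := by
    intro a
    rw [ValuationSubring.mem_comap, ← IsScalarTower.algebraMap_apply]
    exact w.const_mem a
  ne_top := by
    intro h
    apply w.ne_top
    rw [eq_top_iff]
    intro a _
    apply H639R3.integral_mem (A := F) w.ring
    · intro b
      have h1 : b ∈ w.ring.comap (algebraMap F K) := by rw [h]; trivial
      exact h1
    · exact Algebra.IsIntegral.isIntegral a

variable {K : Type} [Field K] [Algebra F K] [Algebra k K] [IsScalarTower k F K]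
  [FiniteDimensional F K]

theorem mem_placesOver_iff (v : H707R3.Place k F) (w : H707R3.Place k K) :
    w ∈ H623R3.ZT.placesOver K v ↔ below w = v := by
  constructor
  · intro h
    apply H707R3.Place.ext_ring
    exact h
  · rintro rfl
    rfl

theorem placesOver_finite [Finite k] (hF : H707R3.IsCurveFunctionField k F) [IsGalois F K]
    (v : H707R3.Place k F) : (H623R3.ZT.placesOver K v).Finite := by
  by_cases hne : (H623R3.ZT.placesOver K v).Nonempty
  · obtain ⟨w₀, hw₀⟩ := hne
    have h1 : ∀ w : H623R3.ZT.placesOver K v, ∃ σ : K ≃ₐ[F] K, ∀ a, a ∈ w.1.ring ↔ σ a ∈ w₀.ring :=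
      fun w => H623R3.ZT.exists_conj hF v w₀.ring w.1.ring hw₀ w.2
    choose s hs using h1
    have hinj : Function.Injective s := by
      intro w w' hww
      apply Subtype.ext
      apply H707R3.Place.ext_ring
      ext a
      rw [hs w, hs w', hww]
    have : Finite (K ≃ₐ[F] K) := inferInstance
    have h2 : Finite (H623R3.ZT.placesOver K v) := Finite.of_injective s hinj
    exact Set.toFinite _
  · rw [Set.not_nonempty_iff_eq_empty.1 hne]
    exact Set.finite_empty

end finite

end Pool.Agent.H278R3.ZT
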