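import Pool.Agent.H707R3.CurveDefs

/-! The layers of a `ℤ_p`-tower (project ZT, helper278). -/

set_option autoImplicit false

namespace Pool.Agent.H278R3.ZT

open Pool.Agent

section group

variable {p : ℕ} [Fact p.Prime] {G : Type} [Group G] (Φ : G ≃* Multiplicative ℤ_[p])

/-- reduction modulo `p ^ n` -/
noncomputable def redHom (n : ℕ) : G →* Multiplicative (ZMod (p ^ n)) :=
  (AddMonoidHom.toMultiplicative (PadicInt.toZModPow (p := p) n).toAddMonoidHom).comp Φ.toMonoidHom

theorem redHom_apply (n : ℕ) (σ : G) :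
    (redHom Φ n σ).toAdd = PadicInt.toZModPow n (Φ σ).toAdd := rfl

theorem mem_ker_redHom (n : ℕ) (σ : G) :
    σ ∈ (redHom Φ n).ker ↔ (p : ℤ_[p]) ^ n ∣ (Φ σ).toAdd := by
  rw [MonoidHom.mem_ker]
  have h1 : redHom Φ n σ = 1 ↔ (redHom Φ n σ).toAdd = 0 := Iff.rfl
  rw [h1, redHom_apply, ← Ideal.mem_span_singleton, ← PadicInt.ker_toZModPow, RingHom.mem_ker]

theorem redHom_surjective (n : ℕ) : Function.Surjective (redHom Φ n) := by
  intro z
  obtain ⟨y, hy⟩ := ZMod.ringHom_surjective (PadicInt.toZModPow (p := p) n) z.toAdd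
  refine ⟨Φ.symm (Multiplicative.ofAdd y), ?_⟩
  apply Multiplicative.toAdd.injective
  rw [redHom_apply]
  simp [hy]

theorem index_ker_redHom (n : ℕ) : (redHom Φ n).ker.index = p ^ n := by
  rw [Subgroup.index_ker, MonoidHom.range_eq_top.2 (redHom_surjective Φ n)]
  rw [Nat.card_congr (Subgroup.topEquiv (G := Multiplicative (ZMod (p ^ n)))).toEquiv]
  exact Nat.card_zmod (p ^ n)

include Φ in
theorem comm_of_equiv (σ τ : G) : σ * τ = τ * σ := by
  apply Φ.injective
  rw [map_mul, map_mul, mul_comm]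

include Φ in
theorem normal_of_equiv (H : Subgroup G) : H.Normal :=
  ⟨fun n hn g => by
    rw [comm_of_equiv Φ g n, mul_assoc, mul_inv_cancel, mul_one]
    exact hn⟩

/-- the subgroups of index `p ^ n` of `ℤ_p` -/
theorem eq_ker_of_index (H : Subgroup G) (n : ℕ) (h : H.index = p ^ n) : H = (redHom Φ n).ker := by
  have hN := normal_of_equiv Φ H
  have hle : (redHom Φ n).ker ≤ H := by
    intro τ hτ
    rw [mem_ker_redHom] at hτ
    obtain ⟨z, hz⟩ := hτ
    have h1 : (Φ.symm (Multiplicative.ofAdd z)) ^ (p ^ n) = τ := by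
      apply Φ.injective
      rw [map_pow, MulEquiv.apply_symm_apply]
      apply Multiplicative.toAdd.injective
      rw [hz, toAdd_pow, toAdd_ofAdd, nsmul_eq_mul]
      push_cast
      rfl
    rw [← h1, ← h]
    exact H.pow_index_mem _
  have h2 := Subgroup.relIndex_mul_index hle
  rw [index_ker_redHom, h] at h2
  have hp : 0 < p ^ n := pow_pos (Fact.out : p.Prime).pos n
  have h3 : (redHom Φ n).ker.relIndex H = 1 := by
    have : (redHom Φ n).ker.relIndex H * p ^ n = 1 * p ^ n := by rw [h2, one_mul]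
    exact Nat.eq_of_mul_eq_mul_right hp this
  rw [Subgroup.relIndex_eq_one] at h3
  exact le_antisymm h3 hle

end group

section field

variable {p : ℕ} [Fact p.Prime] {F E : Type} [Field F] [Field E] [Algebra F E] [IsGalois F E]
  (Φ : (E ≃ₐ[F] E) ≃* Multiplicative ℤ_[p]) (K : IntermediateField F E) (n : ℕ)

include Φ in
theorem layer_fixingSubgroup (hK : Module.finrank F K = p ^ n) :
    K.fixingSubgroup = (redHom Φ n).ker := by
  apply eq_ker_of_index
  rw [← IntermediateField.finrank_eq_fixingSubgroup_index, hK]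

include Φ in
theorem mem_layer_fixingSubgroup (hK : Module.finrank F K = p ^ n) (σ : E ≃ₐ[F] E) :
    σ ∈ K.fixingSubgroup ↔ (p : ℤ_[p]) ^ n ∣ (Φ σ).toAdd := by
  rw [layer_fixingSubgroup Φ K n hK, mem_ker_redHom]

omit [IsGalois F E] in
theorem layer_finite (hK : Module.finrank F K = p ^ n) : FiniteDimensional F K := by
  apply Module.finite_of_finrank_pos
  rw [hK]
  exact pow_pos (Fact.out : p.Prime).pos n

include Φ in
theorem layer_galois : IsGalois F K := by
  rw [← InfiniteGalois.normal_iff_isGalois]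
  exact normal_of_equiv Φ _

/-- restriction of automorphisms to a layer -/
noncomputable def res (K : IntermediateField F E) [IsGalois F K] : (E ≃ₐ[F] E) →* (K ≃ₐ[F] K) :=
  AlgEquiv.restrictNormalHom K

theorem res_apply (K : IntermediateField F E) [IsGalois F K] (σ : E ≃ₐ[F] E) (x : K) :
    ((res K σ x : K) : E) = σ x :=
  AlgEquiv.restrictNormal_commutes σ K x

theorem res_surjective (K : IntermediateField F E) [IsGalois F K] : Function.Surjective (res K) :=
  AlgEquiv.restrictNormalHom_surjective E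

theorem res_eq_one_iff (K : IntermediateField F E) [IsGalois F K] (σ : E ≃ₐ[F] E) :
    res K σ = 1 ↔ σ ∈ K.fixingSubgroup := by
  rw [IntermediateField.mem_fixingSubgroup_iff]
  constructor
  · intro h x hx
    have h1 := res_apply K σ ⟨x, hx⟩
    rw [h] at h1
    exact h1.symm
  · intro h
    apply AlgEquiv.ext
    intro x
    apply Subtype.ext
    rw [res_apply]
    exact h x x.2

include Φ in
theorem res_pow_eq_one_iff (hK : Module.finrank F K = p ^ n) [IsGalois F K] (σ : E ≃ₐ[F] E)
    (j : ℕ) : res K σ ^ j = 1 ↔ (p : ℤ_[p]) ^ n ∣ j * (Φ σ).toAdd := by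
  rw [← map_pow, res_eq_one_iff, mem_layer_fixingSubgroup Φ K n hK, map_pow, toAdd_pow,
    nsmul_eq_mul]

include Φ in
theorem orderOf_res_dvd_iff (hK : Module.finrank F K = p ^ n) [IsGalois F K] (σ : E ≃ₐ[F] E)
    (j : ℕ) : orderOf (res K σ) ∣ j ↔ (p : ℤ_[p]) ^ n ∣ j * (Φ σ).toAdd := by
  rw [orderOf_dvd_iff_pow_eq_one, res_pow_eq_one_iff Φ K n hK]

include Φ in
/-- the Galois group of a layer is isomorphic to `ℤ / p ^ n` -/
theorem layer_equiv (hK : Module.finrank F K = p ^ n) [IsGalois F K] :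
    ∃ e : (K ≃ₐ[F] K) ≃* Multiplicative (ZMod (p ^ n)), ∀ σ, e (res K σ) = redHom Φ n σ := by
  have hker : (res K).ker = (redHom Φ n).ker := by
    ext σ
    rw [MonoidHom.mem_ker, res_eq_one_iff, layer_fixingSubgroup Φ K n hK]
  let e1 := QuotientGroup.quotientKerEquivOfSurjective (res K) (res_surjective K)
  let e2 := QuotientGroup.quotientKerEquivOfSurjective (redHom Φ n) (redHom_surjective Φ n)
  let e3 := QuotientGroup.quotientMulEquivOfEq hker
  refine ⟨(e1.symm.trans e3).trans e2, ?_⟩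
  intro σ
  have h1 : e1.symm (res K σ) = QuotientGroup.mk σ := by
    rw [MulEquiv.symm_apply_eq]
    rfl
  show e2 (e3 (e1.symm (res K σ))) = _
  rw [h1]
  rfl

include Φ in
theorem layer_cyclic (hK : Module.finrank F K = p ^ n) [IsGalois F K] : IsCyclic (K ≃ₐ[F] K) := by
  obtain ⟨e, -⟩ := layer_equiv Φ K n hK
  have : IsCyclic (Multiplicative (ZMod (p ^ n))) := inferInstance
  exact isCyclic_of_surjective e.symm e.symm.surjective

include Φ in
theorem layer_comm (hK : Module.finrank F K = p ^ n) [IsGalois F K] (σ τ : K ≃ₐ[F] K) :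
    σ * τ = τ * σ := by
  obtain ⟨e, -⟩ := layer_equiv Φ K n hK
  apply e.injective
  rw [map_mul, map_mul, mul_comm]

end field

end Pool.Agent.H278R3.ZT
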