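import Pool.Agent.H278R3.ZT.F
import Pool.Agent.H962R3.FAbs
import Pool.Agent.H124R3.TaskFU

/-! Task F of project ZT, assembled (helper278). -/

set_option autoImplicit false

namespace Pool.Agent.H278R3.ZT

open Pool.Agent Pool.Agent.H387R3.ZT

theorem fabsPow : FabsPow := by
  intro p _ q N hq hN ι₀ ι₁ _ d₀ d₁ h0 h1 f0 f1 hp0 hp1 f hf hc
  exact Pool.Agent.H962R3.FAbs.fabs_pow q N hq hN d₀ d₁ h0 h1 f0 f1 hp0 hp1 f hf hc

theorem fabsDiv : FabsDiv := by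
  intro p _ q m hq hm ι₁ _ d₁ h1 f1 hp1 hdiv
  exact Pool.Agent.H962R3.FAbs.fabs_div q m hq hm d₁ h1 f1 hp1 hdiv

theorem taskF2 : TaskF2 :=
  taskF2_of fabsPow fabsDiv Pool.Agent.H124R3.ZT.taskFrob Pool.Agent.H124R3.ZT.taskUnr

end Pool.Agent.H278R3.ZT
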